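import Pool.Agent.N162.GP.Stm
import Pool.Agent.N767.HN.NM1

/-! Project GP (helper162), task GP/GET (helper823), after `N767/HN/NM.lean` (helper767). -/

set_option autoImplicit false

open FF Pool.Agent.W603.LV Pool.Agent.Y184.NT Pool.Agent.N162.BC IntermediateField
open Pool.Agent.N162.CV (StRES)
open Pool.Agent.N162.HN (Good)
open Pool.Agent.N162.GP (StGET)
open Pool.Agent.N624.CV (Ge_mul0 Ge_mul1)

namespace Pool.Agent.N823.GP

/-- products of regular functions -/
lemma Ge_list {Ω E : Type} [Field Ω] [Field E] [Algebra Ω E] [IsAlgClosed Ω] [IsFF Ω E] {n : ℕ}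
    {v : Place Ω E} (y : Fin n → E) (hy : ∀ l, Ge v 0 (y l)) (s : List (Fin n)) :
    Ge v 0 (s.map y).prod := by
  induction s with
  | nil => simpa using Ge.one (P := v)
  | cons a s ih =>
    rw [List.map_cons, List.prod_cons]
    exact Ge_mul0 (hy a) ih

lemma list_div {E : Type} [Field E] {n : ℕ} (y : Fin n → E) {x : E} (hx : x ≠ 0)
    (s : List (Fin n)) : (s.map y).prod = (s.map fun l => y l / x).prod * x ^ s.length := by
  induction s with
  | nil => simp
  | cons a s ih =>
    rw [List.map_cons, List.prod_cons, List.map_cons, List.prod_cons, List.length_cons, ih,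
      pow_succ]
    field_simp

/-- **GP/GET** -/
theorem get_ (hr : StRES) : StGET := by
  intro M m Ω E _ _ _ _ _ _ X hX he h h1 h2
  have : CharZero E := charZero_of_injective_algebraMap (algebraMap Ω E).injective
  have : FiniteDimensional Ω⟮X 1⟯ E := IsFF.finite hX.tr
  have hex : ∀ v : Place Ω E, ∃ a : Ω, Ge v 0 (X 1) → Ge v 1 (X 1 - algebraMap Ω E a) := by
    intro v
    by_cases h0 : Ge v 0 (X 1)
    · obtain ⟨a, h3⟩ := exists_const v h0
      exact ⟨a, fun _ => h3⟩
    · exact ⟨0, fun h3 => absurd h3 h0⟩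
  choose a hav using hex
  refine Pool.Agent.N767.HN.zero_of_trace (L := Ω⟮X 1⟯) (k := m) hX.one
    (mem_adjoin_simple_self Ω (X 1)) hX.gen he fun s hs => ?_
  refine (hr Ω E (X 1) hX.tr ((s.map fun l : Fin M => X l.succ.succ).prod * h) a (fun _ => 0)
    hav ?_ ?_).2.2 fun _ _ => rfl
  · intro v hv
    have hreg := hX.fin v hv
    have h3 := h1 v (a v) (hav v hv)
    rw [map_zero, sub_zero]
    have h4 := Ge_mul0 (Ge_list (fun l : Fin M => X l.succ.succ) (fun l => hreg _) s) h3
    have e : (s.map fun l : Fin M => X l.succ.succ).prod * ((X 1 - algebraMap Ω E (a v)) * h) =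
      (X 1 - algebraMap Ω E (a v)) * ((s.map fun l : Fin M => X l.succ.succ).prod * h) := by ring
    rwa [e] at h4
  · intro v hv
    have hreg := hX.inf v hv
    have hx0 : X 1 ≠ 0 := by
      intro h0
      rw [h0, v.ord_zero] at hv
      omega
    have h3 := h2 v hv
    have hs0 : Ge v 0 ((X 1)⁻¹ ^ (m - s.length)) := by
      have h5 : Ge v 0 (X 1)⁻¹ := Or.inr (by rw [v.ord_inv]; omega)
      have := h5.pow (m - s.length)
      rwa [mul_zero] at this
    have e : X 1 * ((s.map fun l : Fin M => X l.succ.succ).prod * h) =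
        (s.map fun l : Fin M => X l.succ.succ / X 1).prod *
          ((X 1)⁻¹ ^ (m - s.length) * (X 1 ^ (m + 1) * h)) := by
      rw [list_div _ hx0]
      obtain ⟨k, rfl⟩ : ∃ k, m = s.length + k := ⟨m - s.length, by omega⟩
      have h6 : (X 1)⁻¹ ^ k * X 1 ^ k = 1 := by
        rw [← mul_pow, inv_mul_cancel₀ hx0, one_pow]
      rw [Nat.add_sub_cancel_left, pow_succ, pow_add]
      linear_combination (-(X 1 * (s.map fun l : Fin M => X l.succ.succ / X 1).prod *
        X 1 ^ s.length * h)) * h6
    rw [e]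
    exact Ge_mul0 (Ge_list (fun l : Fin M => X l.succ.succ / X 1) (fun l => hreg _) s)
      (Ge_mul0 hs0 h3)

end Pool.Agent.N823.GP
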